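import Pool.Agent.LibScxTree.Order

set_option autoImplicit false

/-!
Combinatorics of the tree: separation of base nodes, isolation, step functions.
-/

namespace Pool.Agent.LibScxTree

open Classical

/-- A finite list of conditions on a base. -/
def Sat (A : Finset (ℚ × Option (ℕ × ℕ))) (p : Base) : Prop := ∀ a ∈ A, p.f a.1 = a.2

theorem Sat.mono {A B : Finset (ℚ × Option (ℕ × ℕ))} {p : Base} (h : Sat B p) (hAB : A ⊆ B) :
    Sat A p := fun a ha => h a (hAB ha)

theorem base_le_iff {v t : Node} (hv : v.k = Kind.zero) :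
    v.le t ↔ (v.b = t.b ∨ ∃ (q : ℚ) (l : ℕ × ℕ), t.b.f q = some l ∧ v.b = t.b.cut q) := by
  constructor
  · rintro (⟨h1, h2⟩ | ⟨q, l, h1, h2, h3⟩)
    · exact Or.inl h1
    · exact Or.inr ⟨q, l, h1, h2⟩
  · rintro (h1 | ⟨q, l, h1, h2⟩)
    · exact Or.inl ⟨h1, by rw [hv]; trivial⟩
    · exact Or.inr ⟨q, l, h1, h2, by rw [hv]; trivial⟩

/-- If a base `v` is below `t` and is defined at `a` then it agrees with `t` up to `a`. -/
theorem agree_of_le {v t : Node} (hv : v.k = Kind.zero) (h : v.le t) {a : ℚ}
    (ha : v.b.f a ≠ none) {r : ℚ} (hr : r ≤ a) : v.b.f r = t.b.f r := by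
  rcases (base_le_iff hv).1 h with h1 | ⟨q, l, h1, h2⟩
  · rw [h1]
  · have haq : a < q := by
      by_contra hq
      rw [h2, Base.cut_of_not_lt _ hq] at ha
      exact ha rfl
    rw [h2, Base.cut_of_lt _ (lt_of_le_of_lt hr haq)]

theorem sep_one {w t : Node} (hw : w.k = Kind.zero) :
    ∃ A : Finset (ℚ × Option (ℕ × ℕ)), Sat A w.b ∧
      ∀ v : Node, v.k = Kind.zero → Sat A v.b → v.le t → (w.le t ∧ v.le w) := by
  by_cases hwt : w.le t
  · rcases (base_le_iff hw).1 hwt with h1 | ⟨c, l, h1, h2⟩
    · refine ⟨∅, fun a ha => absurd ha (by simp), fun v hv _ hvt => ⟨hwt, ?_⟩⟩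
      rcases (base_le_iff hv).1 hvt with h1' | ⟨q, l, h1', h2'⟩
      · exact (base_le_iff hv).2 (Or.inl (h1'.trans h1.symm))
      · exact (base_le_iff hv).2 (Or.inr ⟨q, l, by rw [h1]; exact h1', by rw [h1]; exact h2'⟩)
    · refine ⟨{(c, none)}, ?_, ?_⟩
      · intro a ha
        rw [Finset.mem_singleton] at ha
        subst ha
        simp only
        rw [h2, Base.cut_of_not_lt _ (lt_irrefl _)]
      · intro v hv hA hvt
        refine ⟨hwt, ?_⟩
        have hvc : v.b.f c = none := hA (c, none) (Finset.mem_singleton_self _)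
        rcases (base_le_iff hv).1 hvt with h1' | ⟨q, l', h1', h2'⟩
        · exfalso
          rw [h1', h1] at hvc
          exact absurd hvc (by simp)
        · have hqc : q ≤ c := by
            by_contra hqc
            push Not at hqc
            rw [h2', Base.cut_of_lt _ hqc, h1] at hvc
            exact absurd hvc (by simp)
          rcases eq_or_lt_of_le hqc with hq | hq
          · subst hq
            exact (base_le_iff hv).2 (Or.inl (h2'.trans h2.symm))
          · refine (base_le_iff hv).2 (Or.inr ⟨q, l', ?_, ?_⟩)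
            · rw [h2, Base.cut_of_lt _ hq]; exact h1'
            · rw [h2, Base.cut_cut _ hq.le]; exact h2'
  · -- `w` is not below `t`
    have hne : w.b ≠ t.b := fun h => hwt ((base_le_iff hw).2 (Or.inl h))
    have hwf : ({q : ℚ | w.b.f q ≠ none} ∪ {q : ℚ | t.b.f q ≠ none}).IsWF :=
      w.b.wf.union t.b.wf
    have hD : ({q : ℚ | w.b.f q ≠ t.b.f q}).IsWF := by
      refine hwf.mono ?_
      intro q hq
      by_contra hcon
      simp only [Set.mem_union, not_or] at hcon
      have e1 : w.b.f q = none := by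
        by_contra h; exact hcon.1 h
      have e2 : t.b.f q = none := by
        by_contra h; exact hcon.2 h
      exact hq (e1.trans e2.symm)
    have hDne : ({q : ℚ | w.b.f q ≠ t.b.f q}).Nonempty := by
      by_contra hcon
      apply hne
      ext1
      funext q
      by_contra h
      exact hcon ⟨q, h⟩
    set g := hD.min hDne with hg
    have hgm : w.b.f g ≠ t.b.f g := hD.min_mem hDne
    have hgl : ∀ q, q < g → w.b.f q = t.b.f q := by
      intro q hq
      by_contra h
      exact absurd hq (hD.not_lt_min hDne h)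
    by_cases hwg : w.b.f g = none
    · -- then `t` is defined at `g`, and `w` has an element above `g`
      have htg : t.b.f g ≠ none := fun h => hgm (hwg.trans h.symm)
      obtain ⟨l, hl⟩ := Option.ne_none_iff_exists'.1 htg
      have hex : ∃ a, g < a ∧ w.b.f a ≠ none := by
        by_contra hcon
        push Not at hcon
        apply hwt
        refine (base_le_iff hw).2 (Or.inr ⟨g, l, hl, ?_⟩)
        ext1
        funext r
        rw [Base.cut_f]
        split_ifs with hr
        · exact hgl r hr
        · rcases eq_or_lt_of_le (not_lt.1 hr) with h | h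
          · rw [← h]; exact hwg
          · exact hcon r h
      obtain ⟨a, hga, ha⟩ := hex
      refine ⟨{(g, none), (a, w.b.f a)}, ?_, ?_⟩
      · intro b hb
        rw [Finset.mem_insert, Finset.mem_singleton] at hb
        rcases hb with rfl | rfl
        · exact hwg
        · rfl
      · intro v hv hA hvt
        exfalso
        have h1 : v.b.f g = none := hA (g, none) (by simp)
        have h2 : v.b.f a = w.b.f a := hA (a, w.b.f a) (by simp)
        have h3 : v.b.f g = t.b.f g := agree_of_le hv hvt (by rw [h2]; exact ha) hga.le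
        exact htg (h3.symm.trans h1)
    · refine ⟨{(g, w.b.f g)}, ?_, ?_⟩
      · intro b hb
        rw [Finset.mem_singleton] at hb
        subst hb
        rfl
      · intro v hv hA hvt
        exfalso
        have h1 : v.b.f g = w.b.f g := hA (g, w.b.f g) (by simp)
        have h3 : v.b.f g = t.b.f g := agree_of_le hv hvt (by rw [h1]; exact hwg) le_rfl
        exact hgm (h1.symm.trans h3)

theorem sep_finset {w : Node} (hw : w.k = Kind.zero) (S : Finset Node) :
    ∃ A : Finset (ℚ × Option (ℕ × ℕ)), Sat A w.b ∧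
      ∀ v : Node, v.k = Kind.zero → Sat A v.b → ∀ t ∈ S, v.le t → (w.le t ∧ v.le w) := by
  choose A hA1 hA2 using fun t : Node => sep_one (w := w) (t := t) hw
  refine ⟨S.biUnion A, ?_, ?_⟩
  · intro a ha
    rw [Finset.mem_biUnion] at ha
    obtain ⟨t, _, hat⟩ := ha
    exact hA1 t a hat
  · intro v hv hsat t ht hvt
    exact hA2 t v hv (hsat.mono (Finset.subset_biUnion_of_mem A ht)) hvt

/-- Isolating a node from finitely many others of the same kind. -/
theorem isolate (v₀ : Node) (F : Set Node) (hF : F.Finite) :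
    ∃ A : Finset (ℚ × Option (ℕ × ℕ)), Sat A v₀.b ∧
      ∀ v : Node, v.k = v₀.k → Sat A v.b → v ≠ v₀ → v ∉ F := by
  have hex : ∀ v : Node, ∃ q : ℚ, v.b ≠ v₀.b → v.b.f q ≠ v₀.b.f q := by
    intro v
    by_cases h : v.b = v₀.b
    · exact ⟨0, fun h' => absurd h h'⟩
    · by_contra hcon
      push Not at hcon
      apply h
      ext1
      funext q
      exact (hcon q).2
  choose q hq using hex
  refine ⟨hF.toFinset.image (fun v => (q v, v₀.b.f (q v))), ?_, ?_⟩
  · intro a ha
    rw [Finset.mem_image] at ha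
    obtain ⟨v, _, rfl⟩ := ha
    rfl
  · intro v hk hsat hne hvF
    have hb : v.b ≠ v₀.b := fun h => hne (Node.ext h hk)
    have := hsat (q v, v₀.b.f (q v)) (Finset.mem_image.2 ⟨v, hF.mem_toFinset.2 hvF, rfl⟩)
    exact hq v hb this

/-- Step functions. -/
noncomputable def step (S : Finset Node) (a : Node → ℝ) (v : Node) : ℝ :=
  ∑ t ∈ S, if v.le t then a t else 0

theorem step_congr {S : Finset Node} {a : Node → ℝ} {u v : Node}
    (h : ∀ t ∈ S, (u.le t ↔ v.le t)) : step S a u = step S a v := by
  unfold step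
  refine Finset.sum_congr rfl (fun t ht => ?_)
  by_cases hu : u.le t
  · rw [if_pos hu, if_pos ((h t ht).1 hu)]
  · rw [if_neg hu, if_neg (fun hv => hu ((h t ht).2 hv))]

theorem step_zero {S : Finset Node} {a : Node → ℝ} {v : Node}
    (h : ∀ t ∈ S, ¬ v.le t) : step S a v = 0 := by
  unfold step
  exact Finset.sum_eq_zero (fun t ht => if_neg (h t ht))

theorem abs_step_le (S : Finset Node) (a : Node → ℝ) (v : Node) :
    |step S a v| ≤ ∑ t ∈ S, |a t| := by
  unfold step
  refine (Finset.abs_sum_le_sum_abs _ _).trans (Finset.sum_le_sum (fun t _ => ?_))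
  split_ifs
  · exact le_rfl
  · simp

/-- Supremum of absolute values over the closed cone above `v`. -/
noncomputable def csup (x : Node → ℝ) (v : Node) : ℝ := ⨆ u : {u : Node // v.le u}, |x u|

/-- Supremum of absolute values over the open cone above `v`. -/
noncomputable def esup (x : Node → ℝ) (v : Node) : ℝ := ⨆ u : {u : Node // v.lt u}, |x u|

theorem le_csup {x : Node → ℝ} {M : ℝ} (hM : ∀ u, |x u| ≤ M) {u v : Node} (h : v.le u) :
    |x u| ≤ csup x v := by
  unfold csup
  exact le_ciSup (f := fun u : {u : Node // v.le u} => |x u|)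
    ⟨M, by rintro _ ⟨u, rfl⟩; exact hM _⟩ ⟨u, h⟩

theorem le_esup {x : Node → ℝ} {M : ℝ} (hM : ∀ u, |x u| ≤ M) {u v : Node} (h : v.lt u) :
    |x u| ≤ esup x v := by
  unfold esup
  exact le_ciSup (f := fun u : {u : Node // v.lt u} => |x u|)
    ⟨M, by rintro _ ⟨u, rfl⟩; exact hM _⟩ ⟨u, h⟩

theorem csup_le {x : Node → ℝ} {M : ℝ} {v : Node} (h : ∀ u, v.le u → |x u| ≤ M) :
    csup x v ≤ M := by
  unfold csup
  have : Nonempty {u : Node // v.le u} := ⟨⟨v, v.le_refl⟩⟩
  exact ciSup_le (fun u => h u u.2)

theorem esup_le {x : Node → ℝ} {M : ℝ} (hM : 0 ≤ M) {v : Node} (h : ∀ u, v.lt u → |x u| ≤ M) :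
    esup x v ≤ M := by
  unfold esup
  exact Real.iSup_le (fun u => h u u.2) hM

theorem csup_nonneg (x : Node → ℝ) (v : Node) : 0 ≤ csup x v := by
  unfold csup
  exact Real.iSup_nonneg (fun _ => abs_nonneg _)

theorem esup_nonneg (x : Node → ℝ) (v : Node) : 0 ≤ esup x v := by
  unfold esup
  exact Real.iSup_nonneg (fun _ => abs_nonneg _)

/-- Nodes of a given nonzero kind where a step function jumps are finitely many. -/
theorem finite_jump (S : Finset Node) (a : Node → ℝ) (κ : Kind) :
    {v : Node | v.k = κ ∧ (∃ t ∈ S, v.le t) ∧ step S a v.root ≠ step S a v}.Finite := by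
  have hsub : {v : Node | v.k = κ ∧ (∃ t ∈ S, v.le t) ∧ step S a v.root ≠ step S a v} ⊆
      ⋃ t ∈ S, ⋃ t' ∈ S, {v : Node | v.k = κ ∧ v.le t ∧ ¬ v.le t' ∧ v.root.le t'} := by
    rintro v ⟨hk, ⟨t, ht, hvt⟩, hne⟩
    have : ∃ t' ∈ S, v.root.le t' ∧ ¬ v.le t' := by
      by_contra hcon
      push Not at hcon
      exact hne (step_congr (fun t' ht' => ⟨hcon t' ht', fun h => Node.le_trans v.root_le h⟩))
    obtain ⟨t', ht', h1, h2⟩ := this
    simp only [Set.mem_iUnion]
    exact ⟨t, ht, t', ht', hk, hvt, h2, h1⟩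
  refine Set.Finite.subset ?_ hsub
  refine S.finite_toSet.biUnion (fun t _ => S.finite_toSet.biUnion (fun t' _ => ?_))
  refine Set.Subsingleton.finite ?_
  -- uniqueness
  have key : ∀ v v' : Node, v.k = κ → v'.k = κ → v.le t → v'.le t → ¬ v.le t' → v.root.le t' →
      v'.root.le t' → v.root.le v'.root → v.root = v'.root := by
    intro v v' hk hk' h1 h1' h2 h3 h3' h
    by_contra hne
    rcases Node.le_chain h1 (Node.le_trans v'.root_le h1') with hc | hc
    · exact h2 (Node.le_trans hc h3')
    · exact hne (Node.le_antisymm h (Node.le_root rfl hc))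
  rintro v ⟨hk, h1, h2, h3⟩ v' ⟨hk', h1', h2', h3'⟩
  have hroot : v.root = v'.root := by
    rcases Node.le_chain (Node.le_trans v.root_le h1) (Node.le_trans v'.root_le h1') with h | h
    · exact key v v' hk hk' h1 h1' h2 h3 h3' h
    · exact (key v' v hk' hk h1' h1 h2' h3' h3 h).symm
  have hb : v.root.b = v'.root.b := congrArg Node.b hroot
  exact Node.ext hb (hk.trans hk'.symm)

/-- Nodes where a step function strictly exceeds everything above are finitely many. -/
theorem finite_end (S : Finset Node) (a : Node → ℝ) :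
    {v : Node | esup (step S a) v < |step S a v|}.Finite := by
  have hsub : {v : Node | esup (step S a) v < |step S a v|} ⊆
      ⋃ t ∈ S, ⋃ t' ∈ S, {v : Node | v.le t ∧ v.le t' ∧ ∀ u : Node, v.lt u → u.le t →
        ¬ u.le t'} := by
    intro v hv
    simp only [Set.mem_ofPred_eq] at hv
    by_contra hcon
    simp only [Set.mem_iUnion, not_exists] at hcon
    have hpos : 0 < |step S a v| := lt_of_le_of_lt (esup_nonneg _ _) hv
    have hex : ∃ t₀ ∈ S, v.le t₀ := by
      by_contra h
      push Not at h
      rw [step_zero h] at hpos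
      simp at hpos
    obtain ⟨t₀, ht₀, hvt₀⟩ := hex
    -- for each t in S above v there is u > v below t₀ and t
    have hu : ∀ t : Node, ∃ u : Node, t ∈ S → v.le t → (v.lt u ∧ u.le t₀ ∧ u.le t) := by
      intro t
      by_cases h : t ∈ S ∧ v.le t
      · have := hcon t₀ ht₀ t h.1
        simp only [Set.mem_ofPred_eq, not_and, not_forall, not_not] at this
        obtain ⟨u, h1, h2, h3⟩ := this hvt₀ h.2
        exact ⟨u, fun _ _ => ⟨h1, h2, h3⟩⟩
      · exact ⟨v, fun h1 h2 => absurd ⟨h1, h2⟩ h⟩
    choose u hu using hu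
    -- a minimal element among finitely many in a chain
    have hmin : ∀ T : Finset Node, (∀ t ∈ T, t ∈ S ∧ v.le t) → T.Nonempty →
        ∃ m : Node, v.lt m ∧ m.le t₀ ∧ ∀ t ∈ T, m.le t := by
      intro T
      induction T using Finset.induction_on with
      | empty => intro _ h; exact absurd h (by simp)
      | insert t T htT ih =>
        intro hT _
        have ht : t ∈ S ∧ v.le t := hT t (Finset.mem_insert_self _ _)
        obtain ⟨h1, h2, h3⟩ := hu t ht.1 ht.2
        by_cases hTe : T.Nonempty
        · obtain ⟨m, hm1, hm2, hm3⟩ := ih (fun s hs => hT s (Finset.mem_insert_of_mem hs)) hTe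
          rcases Node.le_chain h2 hm2 with h | h
          · refine ⟨u t, h1, h2, fun s hs => ?_⟩
            rcases Finset.mem_insert.1 hs with rfl | hs
            · exact h3
            · exact Node.le_trans h (hm3 s hs)
          · refine ⟨m, hm1, hm2, fun s hs => ?_⟩
            rcases Finset.mem_insert.1 hs with rfl | hs
            · exact Node.le_trans h h3
            · exact hm3 s hs
        · rw [Finset.not_nonempty_iff_eq_empty] at hTe
          subst hTe
          refine ⟨u t, h1, h2, fun s hs => ?_⟩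
          simp only [insert_empty_eq, Finset.mem_singleton] at hs
          subst hs
          exact h3
    obtain ⟨m, hm1, hm2, hm3⟩ := hmin (S.filter (fun t => v.le t))
      (fun t ht => Finset.mem_filter.1 ht) ⟨t₀, Finset.mem_filter.2 ⟨ht₀, hvt₀⟩⟩
    have heq : step S a m = step S a v :=
      step_congr (fun t ht => ⟨fun h => Node.le_trans hm1.1 h,
        fun h => hm3 t (Finset.mem_filter.2 ⟨ht, h⟩)⟩)
    have := le_esup (x := step S a) (abs_step_le S a) hm1
    rw [heq] at this
    exact absurd hv (not_lt.2 this)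
  refine Set.Finite.subset ?_ hsub
  refine S.finite_toSet.biUnion (fun t _ => S.finite_toSet.biUnion (fun t' _ => ?_))
  refine Set.Subsingleton.finite ?_
  rintro v ⟨h1, h2, h3⟩ v' ⟨h1', h2', h3'⟩
  by_contra hne
  rcases Node.le_chain h1 h1' with h | h
  · exact h3 v' ⟨h, hne⟩ h1' h2'
  · exact h3' v ⟨h, fun e => hne e.symm⟩ h1 h2

end Pool.Agent.LibScxTree
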