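import Pool.Agent.LibScxTree.Sep

set_option autoImplicit false

/-!
The Banach space and its bi-Lipschitz embedding.
-/

namespace Pool.Agent.LibScxTree

open Classical Filter Topology

/-- Bounded functions on nodes. -/
abbrev BigL : Type := lp (fun _ : Node => ℝ) ⊤

theorem memlp_of_bound {ι : Type} {f : ι → ℝ} {M : ℝ} (h : ∀ i, |f i| ≤ M) :
    Memℓp (E := fun _ : ι => ℝ) f ⊤ := by
  refine memℓp_infty ⟨M, ?_⟩
  rintro _ ⟨i, rfl⟩
  exact h i

/-- The indicator of the initial segment below `t`. -/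
noncomputable def ind (t : Node) : BigL :=
  ⟨fun v => if v.le t then 1 else 0, memlp_of_bound (M := 1) (by
    intro v
    split_ifs <;> simp)⟩

theorem ind_apply (t v : Node) : ind t v = if v.le t then 1 else 0 := rfl

theorem abs_apply_le (x : BigL) (v : Node) : |x v| ≤ ‖x‖ := by
  have := lp.norm_apply_le_norm (p := ⊤) ENNReal.top_ne_zero x v
  simpa [Real.norm_eq_abs] using this

/-- The space. -/
noncomputable def XS : Submodule ℝ BigL := (Submodule.span ℝ (Set.range ind)).topologicalClosure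

/-- elements of the span are step functions -/
theorem span_step {x : BigL} (hx : x ∈ Submodule.span ℝ (Set.range ind)) :
    ∃ (S : Finset Node), ∀ T : Finset Node, S ⊆ T →
      ∃ a' : Node → ℝ, (∀ v, x v = step T a' v) := by
  induction hx using Submodule.span_induction with
  | mem x h =>
    obtain ⟨t, rfl⟩ := h
    refine ⟨{t}, fun T hT => ⟨fun u => if u = t then 1 else 0, fun v => ?_⟩⟩
    rw [ind_apply, step, Finset.sum_eq_single t]
    · simp
    · intro b _ hb
      simp [hb]
    · intro h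
      exact absurd (hT (Finset.mem_singleton_self t)) h
  | zero =>
    refine ⟨∅, fun T _ => ⟨fun _ => 0, fun v => ?_⟩⟩
    simp [step]
  | add x y _ _ hx hy =>
    obtain ⟨S, hS⟩ := hx
    obtain ⟨S', hS'⟩ := hy
    refine ⟨S ∪ S', fun T hT => ?_⟩
    obtain ⟨b, hb⟩ := hS T (Finset.union_subset_left hT)
    obtain ⟨b', hb'⟩ := hS' T (Finset.union_subset_right hT)
    refine ⟨fun u => b u + b' u, fun v => ?_⟩
    have : (x + y) v = x v + y v := rfl
    rw [this, hb, hb', step, step, step, ← Finset.sum_add_distrib]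
    refine Finset.sum_congr rfl (fun t _ => ?_)
    split_ifs <;> simp
  | smul r x _ hx =>
    obtain ⟨S, hS⟩ := hx
    refine ⟨S, fun T hT => ?_⟩
    obtain ⟨b, hb⟩ := hS T hT
    refine ⟨fun u => r * b u, fun v => ?_⟩
    have : (r • x) v = r * x v := rfl
    rw [this, hb, step, step, Finset.mul_sum]
    refine Finset.sum_congr rfl (fun t _ => ?_)
    split_ifs <;> simp

theorem span_step₂ {x y : BigL} (hx : x ∈ Submodule.span ℝ (Set.range ind))
    (hy : y ∈ Submodule.span ℝ (Set.range ind)) :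
    ∃ (S : Finset Node) (a b : Node → ℝ), (x : Node → ℝ) = step S a ∧ (y : Node → ℝ) = step S b := by
  obtain ⟨S, hS⟩ := span_step hx
  obtain ⟨S', hS'⟩ := span_step hy
  obtain ⟨b, hb⟩ := hS (S ∪ S') Finset.subset_union_left
  obtain ⟨b', hb'⟩ := hS' (S ∪ S') Finset.subset_union_right
  exact ⟨S ∪ S', b, b', funext hb, funext hb'⟩

/-! ### Lipschitz estimates -/

theorem csup_lip (x y : BigL) (v : Node) : |csup x v - csup y v| ≤ ‖x - y‖ := by
  have key : ∀ x y : BigL, csup x v ≤ csup y v + ‖x - y‖ := by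
    intro x y
    refine csup_le (fun u hu => ?_)
    have h1 : |x u| ≤ |y u| + |(x - y) u| := by
      have : x u = y u + (x - y) u := by
        have : (x - y) u = x u - y u := rfl
        rw [this]; ring
      rw [this]
      exact abs_add_le _ _
    have h2 := abs_apply_le (x - y) u
    have h3 := le_csup (x := y) (abs_apply_le y) hu
    linarith
  rw [abs_sub_le_iff]
  constructor
  · linarith [key x y]
  · have := key y x
    rw [norm_sub_rev] at this
    linarith

theorem esup_lip (x y : BigL) (v : Node) : |esup x v - esup y v| ≤ ‖x - y‖ := by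
  have key : ∀ x y : BigL, esup x v ≤ esup y v + ‖x - y‖ := by
    intro x y
    refine esup_le (add_nonneg (esup_nonneg _ _) (norm_nonneg _)) (fun u hu => ?_)
    have h1 : |x u| ≤ |y u| + |(x - y) u| := by
      have : x u = y u + (x - y) u := by
        have : (x - y) u = x u - y u := rfl
        rw [this]; ring
      rw [this]
      exact abs_add_le _ _
    have h2 := abs_apply_le (x - y) u
    have h3 := le_esup (x := y) (abs_apply_le y) hu
    linarith
  rw [abs_sub_le_iff]
  constructor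
  · linarith [key x y]
  · have := key y x
    rw [norm_sub_rev] at this
    linarith

theorem D_lip (x y : BigL) (v : Node) : dist (D x v) (D y v) ≤ ‖x - y‖ := by
  have h : ∀ u, dist (x u) (y u) ≤ ‖x - y‖ := by
    intro u
    rw [Real.dist_eq]
    exact abs_apply_le (x - y) u
  refine max_le (h _) (max_le (h _) (max_le ?_ ?_))
  · rw [Real.dist_eq]; exact csup_lip x y v
  · rw [Real.dist_eq]; exact esup_lip x y v

/-- Index set of coordinates. -/
abbrev Idx : Type := Kind × Finset (ℚ × Option (ℕ × ℕ)) × (ℚ × ℚ × ℚ × ℚ)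

theorem countable_kind : Countable Kind := by
  let f : Kind → Option (ℕ ⊕ (ℕ × ℕ)) := fun k => match k with
    | Kind.zero => none
    | Kind.one j => some (Sum.inl j)
    | Kind.two l => some (Sum.inr l)
  refine Function.Injective.countable (f := f) ?_
  intro a b h
  cases a <;> cases b <;> simp_all [f]

theorem countable_idx : Countable Idx := by
  have := countable_kind
  infer_instance

/-- The real point of a rational centre. -/
noncomputable def pt (c : ℚ × ℚ × ℚ × ℚ) : ℝ × ℝ × ℝ × ℝ := (c.1, c.2.1, c.2.2.1, c.2.2.2)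

theorem pt_dense (z : ℝ × ℝ × ℝ × ℝ) {η : ℝ} (hη : 0 < η) : ∃ c, dist z (pt c) ≤ η := by
  have h : ∀ r : ℝ, ∃ q : ℚ, dist r (q : ℝ) ≤ η := by
    intro r
    obtain ⟨q, h1, h2⟩ := exists_rat_btwn (show r - η < r by linarith)
    refine ⟨q, ?_⟩
    rw [Real.dist_eq, abs_le]
    constructor <;> linarith
  obtain ⟨q1, h1⟩ := h z.1
  obtain ⟨q2, h2⟩ := h z.2.1
  obtain ⟨q3, h3⟩ := h z.2.2.1
  obtain ⟨q4, h4⟩ := h z.2.2.2
  exact ⟨(q1, q2, q3, q4), max_le h1 (max_le h2 (max_le h3 h4))⟩

/-- A coordinate function. -/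
noncomputable def gfun (i : Idx) (x : Node → ℝ) : ℝ :=
  ⨅ v : {v : Node // v.k = i.1 ∧ Sat i.2.1 v.b}, dist (D x v) (pt i.2.2)

theorem gfun_le (i : Idx) (x : Node → ℝ) (v : Node) (h1 : v.k = i.1) (h2 : Sat i.2.1 v.b) :
    gfun i x ≤ dist (D x v) (pt i.2.2) := by
  unfold gfun
  exact ciInf_le (f := fun v : {v : Node // v.k = i.1 ∧ Sat i.2.1 v.b} => dist (D x v) (pt i.2.2))
    ⟨0, by rintro _ ⟨u, rfl⟩; exact dist_nonneg⟩ ⟨v, h1, h2⟩

theorem le_gfun (i : Idx) (x : Node → ℝ) (v₀ : Node) (h1 : v₀.k = i.1) (h2 : Sat i.2.1 v₀.b)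
    {m : ℝ} (h : ∀ v : Node, v.k = i.1 → Sat i.2.1 v.b → m ≤ dist (D x v) (pt i.2.2)) :
    m ≤ gfun i x := by
  unfold gfun
  have : Nonempty {v : Node // v.k = i.1 ∧ Sat i.2.1 v.b} := ⟨⟨v₀, h1, h2⟩⟩
  exact le_ciInf (fun v => h v v.2.1 v.2.2)

theorem gfun_lip (i : Idx) (x y : BigL) : |gfun i x - gfun i y| ≤ ‖x - y‖ := by
  by_cases hne : Nonempty {v : Node // v.k = i.1 ∧ Sat i.2.1 v.b}
  · obtain ⟨v₀, hv1, hv2⟩ := hne
    have key : ∀ x y : BigL, gfun i x - ‖x - y‖ ≤ gfun i y := by
      intro x y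
      refine le_gfun i y v₀ hv1 hv2 (fun v h1 h2 => ?_)
      have e1 := gfun_le i x v h1 h2
      have e2 := D_lip x y v
      have e3 := dist_triangle (D x v) (D y v) (pt i.2.2)
      linarith
    rw [abs_sub_le_iff]
    constructor
    · linarith [key x y]
    · have := key y x
      rw [norm_sub_rev] at this
      linarith
  · rw [not_nonempty_iff] at hne
    unfold gfun
    rw [Real.iInf_of_isEmpty, Real.iInf_of_isEmpty]
    simp

/-- If `Good`, some coordinate separates. -/
theorem coord_of_good {x y : BigL} {s η : ℝ} (hη : 0 < η) (h : Good x y s) :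
    ∃ i : Idx, s - 2 * η ≤ |gfun i x - gfun i y| := by
  obtain ⟨κ, A, v₀, h1, h2, h3⟩ := h
  obtain ⟨c, hc⟩ := pt_dense (D x v₀) hη
  refine ⟨(κ, A, c), ?_⟩
  have e1 : gfun (κ, A, c) x ≤ dist (D x v₀) (pt c) := gfun_le (κ, A, c) x v₀ h1 h2
  have e2 : s - η ≤ gfun (κ, A, c) y := by
    refine le_gfun (κ, A, c) y v₀ h1 h2 (fun v hv hA => ?_)
    have e3 := h3 v hv hA
    have e4 := dist_triangle (D y v) (pt c) (D x v₀)
    rw [dist_comm (pt c) (D x v₀)] at e4
    show s - η ≤ dist (D y v) (pt c)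
    linarith
  have e5 := neg_abs_le (gfun (κ, A, c) x - gfun (κ, A, c) y)
  linarith

/-- The lower estimate for elements of the span. -/
theorem coord_lower {x y : BigL} (hx : x ∈ Submodule.span ℝ (Set.range ind))
    (hy : y ∈ Submodule.span ℝ (Set.range ind)) (hxy : x ≠ y) :
    ∃ i : Idx, ‖x - y‖ / 64 ≤ |gfun i x - gfun i y| := by
  obtain ⟨S, a, b, ha, hb⟩ := span_step₂ hx hy
  have hpos : 0 < ‖x - y‖ := norm_pos_iff.2 (sub_ne_zero.2 hxy)
  have hex : ∃ t : Node, ‖x - y‖ / 2 ≤ |x t - y t| := by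
    by_contra hcon
    push Not at hcon
    have : ‖x - y‖ ≤ ‖x - y‖ / 2 := by
      refine lp.norm_le_of_forall_le (by linarith) (fun t => ?_)
      exact (hcon t).le
    linarith
  obtain ⟨t, ht⟩ := hex
  have ht' : ‖x - y‖ / 2 ≤ |step S a t - step S b t| := by
    rw [← ha, ← hb]; exact ht
  have hη : 0 < ‖x - y‖ / 128 := by linarith
  rcases good_main S a b t (by linarith) ht' with h | h
  · rw [← ha, ← hb] at h
    obtain ⟨i, hi⟩ := coord_of_good hη h
    exact ⟨i, by linarith⟩
  · rw [← ha, ← hb] at h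
    obtain ⟨i, hi⟩ := coord_of_good hη h
    rw [abs_sub_comm] at hi
    exact ⟨i, by linarith⟩

/-- The map into bounded sequences given by an enumeration. -/
noncomputable def fmap (e : ℕ → Idx) (x : BigL) : lp (fun _ : ℕ => ℝ) ⊤ :=
  ⟨fun n => gfun (e n) x - gfun (e n) (0 : BigL), memlp_of_bound (M := ‖x‖) (by
    intro n
    have := gfun_lip (e n) x 0
    rwa [sub_zero] at this)⟩

theorem fmap_apply (e : ℕ → Idx) (x : BigL) (n : ℕ) :
    fmap e x n = gfun (e n) x - gfun (e n) (0 : BigL) := rfl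

theorem fmap_lip (e : ℕ → Idx) (x y : BigL) : ‖fmap e x - fmap e y‖ ≤ ‖x - y‖ := by
  refine lp.norm_le_of_forall_le (norm_nonneg _) (fun n => ?_)
  have : (fmap e x - fmap e y) n = gfun (e n) x - gfun (e n) y := by
    have h : (fmap e x - fmap e y) n = fmap e x n - fmap e y n := rfl
    rw [h, fmap_apply, fmap_apply]
    ring
  rw [this, Real.norm_eq_abs]
  exact gfun_lip (e n) x y

theorem fmap_lower_span {e : ℕ → Idx} (he : Function.Surjective e) {x y : BigL}
    (hx : x ∈ Submodule.span ℝ (Set.range ind))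
    (hy : y ∈ Submodule.span ℝ (Set.range ind)) :
    ‖x - y‖ ≤ 64 * ‖fmap e x - fmap e y‖ := by
  by_cases hxy : x = y
  · subst hxy
    simp
  obtain ⟨i, hi⟩ := coord_lower hx hy hxy
  obtain ⟨n, rfl⟩ := he i
  have h1 : (fmap e x - fmap e y) n = gfun (e n) x - gfun (e n) y := by
    have h : (fmap e x - fmap e y) n = fmap e x n - fmap e y n := rfl
    rw [h, fmap_apply, fmap_apply]
    ring
  have h2 : ‖(fmap e x - fmap e y) n‖ ≤ ‖fmap e x - fmap e y‖ :=
    lp.norm_apply_le_norm (p := ⊤) ENNReal.top_ne_zero _ n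
  rw [h1, Real.norm_eq_abs] at h2
  linarith

theorem fmap_lower {e : ℕ → Idx} (he : Function.Surjective e) {x y : BigL}
    (hx : x ∈ XS) (hy : y ∈ XS) :
    ‖x - y‖ ≤ 64 * ‖fmap e x - fmap e y‖ := by
  have hcont : Continuous (fmap e) := by
    have : LipschitzWith 1 (fmap e) := LipschitzWith.of_dist_le_mul (fun x y => by
      rw [dist_eq_norm, dist_eq_norm]
      simpa using fmap_lip e x y)
    exact this.continuous
  have hclosed : IsClosed {p : BigL × BigL | ‖p.1 - p.2‖ ≤ 64 * ‖fmap e p.1 - fmap e p.2‖} := by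
    refine isClosed_le (by fun_prop) ?_
    have h1 : Continuous fun p : BigL × BigL => fmap e p.1 := hcont.comp continuous_fst
    have h2 : Continuous fun p : BigL × BigL => fmap e p.2 := hcont.comp continuous_snd
    exact continuous_const.mul (h1.sub h2).norm
  have hsub : ((Submodule.span ℝ (Set.range ind) : Submodule ℝ BigL) : Set BigL) ×ˢ
      ((Submodule.span ℝ (Set.range ind) : Submodule ℝ BigL) : Set BigL) ⊆
      {p : BigL × BigL | ‖p.1 - p.2‖ ≤ 64 * ‖fmap e p.1 - fmap e p.2‖} := by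
    rintro ⟨u, v⟩ ⟨hu, hv⟩
    exact fmap_lower_span he hu hv
  have hcl := closure_minimal hsub hclosed
  rw [closure_prod_eq] at hcl
  have hx' : x ∈ closure ((Submodule.span ℝ (Set.range ind) : Submodule ℝ BigL) : Set BigL) := hx
  have hy' : y ∈ closure ((Submodule.span ℝ (Set.range ind) : Submodule ℝ BigL) : Set BigL) := hy
  exact hcl (Set.mk_mem_prod hx' hy')

/-- The space bi-Lipschitz embeds into bounded sequences. -/
theorem exists_embedding :
    ∃ f : XS → lp (fun _ : ℕ => ℝ) ⊤, ∃ K₁ K₂ : NNReal,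
      LipschitzWith K₁ f ∧ AntilipschitzWith K₂ f := by
  have := countable_idx
  have hne : Nonempty Idx := ⟨(Kind.zero, ∅, (0, 0, 0, 0))⟩
  obtain ⟨e, he⟩ := exists_surjective_nat Idx
  refine ⟨fun x => fmap e (x : BigL), 1, 64, ?_, ?_⟩
  · refine LipschitzWith.of_dist_le_mul (fun x y => ?_)
    rw [dist_eq_norm, Subtype.dist_eq, dist_eq_norm]
    simpa using fmap_lip e (x : BigL) (y : BigL)
  · refine AntilipschitzWith.of_le_mul_dist (fun x y => ?_)
    have h := fmap_lower he x.2 y.2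
    have h2 : dist (fmap e (x : BigL)) (fmap e (y : BigL)) =
        ‖fmap e (x : BigL) - fmap e (y : BigL)‖ := dist_eq_norm _ _
    rw [h2, Subtype.dist_eq, dist_eq_norm]
    simpa using h

end Pool.Agent.LibScxTree
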