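import Pool.Agent.LibScxTree.NoScx

set_option autoImplicit false

/-!
The space has no equivalent strictly convex norm: the norm part.
-/

namespace Pool.Agent.LibScxTree

open Classical

theorem ind_mem (t : Node) : ind t ∈ XS :=
  Submodule.le_topologicalClosure _ (Submodule.subset_span ⟨t, rfl⟩)

/-- The indicator as an element of the space. -/
noncomputable def U (t : Node) : XS := ⟨ind t, ind_mem t⟩

theorem U_apply (t v : Node) : (U t : BigL) v = if v.le t then 1 else 0 := rfl

/-- Elements agreeing with the indicator of `t` off the open cone above `t`. -/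
def Z (t : Node) : Set XS := {z | ∀ u : Node, ¬ t.lt u → (z : BigL) u = if u.le t then 1 else 0}

theorem U_mem_Z (t : Node) : U t ∈ Z t := fun _ _ => rfl

theorem Z_anti {t t' : Node} (h : t.le t') : Z t' ⊆ Z t := by
  intro z hz u hu
  have h1 : ¬ t'.lt u := fun h' => hu (Node.lt_of_le_of_lt h h')
  rw [hz u h1]
  by_cases hut : u.le t
  · rw [if_pos hut, if_pos (Node.le_trans hut h)]
  · rw [if_neg hut, if_neg]
    intro hut'
    rcases Node.le_chain hut' h with h2 | h2
    · exact hut h2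
    · exact hu ⟨h2, fun e => hut (e ▸ Node.le_refl _)⟩

section

variable {N : XS → ℝ} {c C : ℝ}

/-- The infimum of the norm over `Z t`. -/
noncomputable def mu (N : XS → ℝ) (t : Node) : ℝ := sInf (N '' Z t)

theorem norm_ge_one {t : Node} {z : XS} (hz : z ∈ Z t) : 1 ≤ ‖z‖ := by
  have h := hz t (fun h => h.2 rfl)
  rw [if_pos t.le_refl] at h
  have := abs_apply_le (z : BigL) t
  rw [h, abs_one] at this
  exact this

theorem mu_le (hc : 0 < c) (hN : ∀ x : XS, c * ‖x‖ ≤ N x ∧ N x ≤ C * ‖x‖) {t : Node} {z : XS}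
    (hz : z ∈ Z t) : mu N t ≤ N z := by
  refine csInf_le ⟨0, ?_⟩ ⟨z, hz, rfl⟩
  rintro _ ⟨y, _, rfl⟩
  exact le_trans (mul_nonneg hc.le (norm_nonneg _)) (hN y).1

theorem le_mu {t : Node} {m : ℝ} (h : ∀ z ∈ Z t, m ≤ N z) : m ≤ mu N t := by
  refine le_csInf ⟨_, U t, U_mem_Z t, rfl⟩ ?_
  rintro _ ⟨y, hy, rfl⟩
  exact h y hy

theorem mu_pos (hc : 0 < c) (hN : ∀ x : XS, c * ‖x‖ ≤ N x ∧ N x ≤ C * ‖x‖) (t : Node) :
    0 < mu N t := by
  refine lt_of_lt_of_le hc (le_mu (fun z hz => ?_))
  have h1 := norm_ge_one hz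
  have h2 := (hN z).1
  nlinarith

theorem mu_mono (hc : 0 < c) (hN : ∀ x : XS, c * ‖x‖ ≤ N x ∧ N x ≤ C * ‖x‖) {t t' : Node}
    (h : t.le t') : mu N t ≤ mu N t' :=
  le_mu (fun _ hz => mu_le hc hN (Z_anti h hz))

theorem exists_near (t : Node) {ε : ℝ} (hε : 0 < ε) : ∃ z ∈ Z t, N z < mu N t + ε := by
  have : sInf (N '' Z t) < mu N t + ε := by unfold mu; linarith
  obtain ⟨_, ⟨z, hz, rfl⟩, h⟩ := exists_lt_of_csInf_lt
    (Set.Nonempty.image N ⟨U t, U_mem_Z t⟩) this
  exact ⟨z, hz, h⟩

/-- Averaging: if `mu` is constant on infinitely many immediate successors then the norm of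
the indicator is `mu`. -/
theorem N_U_eq (hc : 0 < c) (hC : 0 < C) (hN : ∀ x : XS, c * ‖x‖ ≤ N x ∧ N x ≤ C * ‖x‖)
    (hadd : ∀ x y : XS, N (x + y) ≤ N x + N y)
    (hsmul : ∀ (r : ℝ) (x : XS), N (r • x) = |r| * N x)
    (t : Node) (s : ℕ → Node) (hs1 : ∀ j, t.lt (s j))
    (hs2 : ∀ j u, u.le (s j) → u.le t ∨ u = s j)
    (hs3 : ∀ j k u, (s j).le u → (s k).le u → j = k)
    (hs4 : ∀ j, mu N (s j) = mu N t) : N (U t) = mu N t := by
  refine le_antisymm ?_ (mu_le hc hN (U_mem_Z t))
  refine le_of_forall_pos_le_add (fun ε hε => ?_)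
  set m := mu N t with hm
  -- choose near minimizers
  have hex : ∀ j, ∃ z ∈ Z (s j), N z < m + ε / 2 := by
    intro j
    have := exists_near (N := N) (s j) (ε := ε / 2) (by linarith)
    rwa [hs4 j] at this
  choose z hz1 hz2 using hex
  -- number of terms
  set B := (m + ε / 2) / c with hB
  have hmpos : 0 < m := mu_pos hc hN t
  have hBpos : 0 < B := by positivity
  obtain ⟨K, hK⟩ := exists_nat_gt (C * B / (ε / 2))
  have hKpos : 0 < (K : ℝ) := lt_of_le_of_lt (by positivity) hK
  have hzB : ∀ j, ‖z j‖ ≤ B := by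
    intro j
    have h1 := (hN (z j)).1
    have h2 := hz2 j
    rw [hB, le_div_iff₀ hc]
    linarith
  -- average
  set A : XS := (1 / (K : ℝ)) • ∑ j ∈ Finset.range K, z j with hA
  have hsum : ∀ n : ℕ, N (∑ j ∈ Finset.range n, z j) ≤ n * (m + ε / 2) := by
    intro n
    induction n with
    | zero =>
      simp only [Finset.range_zero, Finset.sum_empty, Nat.cast_zero, zero_mul]
      have := hsmul 0 0
      rw [zero_smul, abs_zero, zero_mul] at this
      rw [this]
    | succ n ih =>
      rw [Finset.sum_range_succ]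
      refine (hadd _ _).trans ?_
      push_cast
      linarith [hz2 n]
  have hNA : N A ≤ m + ε / 2 := by
    rw [hA, hsmul, abs_of_pos (by positivity)]
    have := hsum K
    calc 1 / (K : ℝ) * N (∑ j ∈ Finset.range K, z j) ≤ 1 / (K : ℝ) * (K * (m + ε / 2)) := by
          gcongr
      _ = m + ε / 2 := by field_simp
  -- difference
  have hdiff : ‖U t - A‖ ≤ B / K := by
    have hcoe : ‖U t - A‖ = ‖((U t - A : XS) : BigL)‖ := rfl
    rw [hcoe]
    refine lp.norm_le_of_forall_le (by positivity) (fun u => ?_)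
    have hval : ((U t - A : XS) : BigL) u =
        (1 / (K : ℝ)) * ∑ j ∈ Finset.range K, ((U t : BigL) u - (z j : BigL) u) := by
      have h1 : ((U t - A : XS) : BigL) u = (U t : BigL) u - (A : BigL) u := rfl
      have h2 : (A : BigL) u = (1 / (K : ℝ)) * ∑ j ∈ Finset.range K, (z j : BigL) u := by
        have h3 : (A : BigL) = (1 / (K : ℝ)) • ∑ j ∈ Finset.range K, (z j : BigL) := by
          rw [hA]
          simp
        rw [h3]
        have h4 : ((1 / (K : ℝ)) • ∑ j ∈ Finset.range K, (z j : BigL)) u =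
            (1 / (K : ℝ)) * (∑ j ∈ Finset.range K, (z j : BigL)) u := rfl
        rw [h4]
        congr 1
        induction (Finset.range K) using Finset.induction_on with
        | empty => rfl
        | insert a s has ih =>
          rw [Finset.sum_insert has, Finset.sum_insert has, ← ih]
          rfl
      rw [h1, h2, Finset.sum_sub_distrib, Finset.sum_const, Finset.card_range, nsmul_eq_mul]
      field_simp
    rw [hval, Real.norm_eq_abs, abs_mul, abs_of_pos (by positivity : 0 < 1 / (K : ℝ))]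
    have hterm : ∀ j, ¬ (s j).le u → (U t : BigL) u - (z j : BigL) u = 0 := by
      intro j hj
      have h1 := hz1 j u (fun h => hj h.1)
      rw [h1, U_apply, sub_eq_zero]
      by_cases hut : u.le t
      · rw [if_pos hut, if_pos (Node.le_trans hut (hs1 j).1)]
      · rw [if_neg hut, if_neg]
        intro h
        rcases hs2 j u h with h' | h'
        · exact hut h'
        · exact hj (h' ▸ Node.le_refl _)
    have hsumle : |∑ j ∈ Finset.range K, ((U t : BigL) u - (z j : BigL) u)| ≤ B := by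
      by_cases hex : ∃ j ∈ Finset.range K, (s j).le u
      · obtain ⟨j, hj, hju⟩ := hex
        rw [Finset.sum_eq_single j]
        · have h0 : (U t : BigL) u = 0 := by
            rw [U_apply, if_neg]
            exact Node.not_le_of_lt (Node.lt_of_lt_of_le (hs1 j) hju)
          rw [h0, zero_sub, abs_neg]
          exact (abs_apply_le _ _).trans (hzB j)
        · intro k _ hkj
          apply hterm
          intro hk
          exact hkj (hs3 k j u hk hju)
        · intro h
          exact absurd hj h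
      · push Not at hex
        rw [Finset.sum_eq_zero (fun j hj => hterm j (hex j hj)), abs_zero]
        exact hBpos.le
    calc 1 / (K : ℝ) * |∑ j ∈ Finset.range K, ((U t : BigL) u - (z j : BigL) u)|
        ≤ 1 / (K : ℝ) * B := by gcongr
      _ = B / K := by ring
  have hfin : N (U t) ≤ N A + N (U t - A) := by
    have := hadd A (U t - A)
    rwa [add_sub_cancel] at this
  have h1 : N (U t - A) ≤ C * (B / K) := by
    refine (hN _).2.trans ?_
    gcongr
  have h2 : C * (B / K) ≤ ε / 2 := by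
    rw [div_lt_iff₀ (by linarith)] at hK
    rw [← mul_div_assoc, div_le_iff₀ hKpos]
    linarith
  linarith

/-- No equivalent strictly convex norm. -/
theorem not_strictly_convex (hc : 0 < c) (hC : 0 < C)
    (hN : ∀ x : XS, c * ‖x‖ ≤ N x ∧ N x ≤ C * ‖x‖)
    (hadd : ∀ x y : XS, N (x + y) ≤ N x + N y)
    (hsmul : ∀ (r : ℝ) (x : XS), N (r • x) = |r| * N x)
    (hconv : ∀ x y : XS, N x = 1 → N y = 1 → x ≠ y → N ((1 / 2 : ℝ) • (x + y)) < 1) : False := by
  -- existence of a flat base
  have hflat : ∃ p : Base, ∀ l : ℕ × ℕ, mu N ⟨p, Kind.two l⟩ ≤ mu N ⟨p, Kind.zero⟩ := by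
    by_contra hcon
    push Not at hcon
    choose lab hlab using hcon
    have hq : ∀ p : Base, ∃ q : ℚ, mu N ⟨p, Kind.zero⟩ < q ∧ (q : ℝ) < mu N ⟨p, Kind.two (lab p)⟩ :=
      fun p => exists_rat_btwn (hlab p)
    choose qq hqq1 hqq2 using hq
    refine exists_flat lab qq (fun p hp q hq => ?_)
    have h1 := hp q hq
    have h2 : (q : ℝ) < mu N ⟨p.cut q, Kind.two (lab (p.cut q))⟩ := by
      have := hqq2 (p.cut q)
      rwa [← h1.2] at this
    have h3 : mu N ⟨p.cut q, Kind.two (lab (p.cut q))⟩ ≤ mu N ⟨p, Kind.zero⟩ :=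
      mu_mono hc hN (Or.inr ⟨q, lab (p.cut q), h1.1, rfl, Kind.le_refl _⟩)
    have h4 := hqq1 p
    exact_mod_cast lt_of_lt_of_le h2 (h3.trans h4.le)
  obtain ⟨p, hp⟩ := hflat
  have hself : ∀ (q : ℚ) (l : ℕ × ℕ), p.f q = some l → p = p.cut q → False := by
    intro q l h1 h2
    have : p.f q = none := by
      rw [h2, Base.cut_of_not_lt _ (lt_irrefl _)]
    rw [this] at h1
    exact absurd h1 (by simp)
  let w : Node := ⟨p, Kind.zero⟩
  let s : ℕ → Node := fun j => ⟨p, Kind.one j⟩
  let s' : ℕ → Node := fun k => ⟨p, Kind.two (0, k)⟩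
  have hw0 : ∀ j, mu N (s j) = mu N w := by
    intro j
    refine le_antisymm ?_ (mu_mono hc hN (Or.inl ⟨rfl, trivial⟩))
    refine le_trans (mu_mono hc hN (t' := ⟨p, Kind.two (j, 0)⟩) (Or.inl ⟨rfl, rfl⟩)) (hp _)
  have hw1 : ∀ k, mu N (s' k) = mu N (s 0) := by
    intro k
    refine le_antisymm ?_ (mu_mono hc hN (Or.inl ⟨rfl, rfl⟩))
    rw [hw0 0]
    exact hp _
  have hN0 : N (U w) = mu N w := by
    refine N_U_eq hc hC hN hadd hsmul w s ?_ ?_ ?_ hw0
    · intro j
      exact ⟨Or.inl ⟨rfl, trivial⟩, fun h => by simpa [w, s] using congrArg Node.k h⟩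
    · intro j u hu
      rcases hu with ⟨h1, h2⟩ | ⟨q, l, h1, h2, h3⟩
      · cases hk : u.k with
        | zero => exact Or.inl (Or.inl ⟨h1, by rw [hk]; trivial⟩)
        | one i =>
          rw [hk] at h2
          have h2' : i = j := h2
          exact Or.inr (Node.ext h1 (by rw [hk, h2']))
        | two l =>
          rw [hk] at h2
          have h2' : False := h2
          exact h2'.elim
      · cases hk : u.k with
        | zero => exact Or.inl (Or.inr ⟨q, l, h1, h2, by rw [hk]; trivial⟩)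
        | one i =>
          rw [hk] at h3
          exact Or.inl (Or.inr ⟨q, l, h1, h2, by rw [hk]; exact h3⟩)
        | two i =>
          rw [hk] at h3
          exact Or.inl (Or.inr ⟨q, l, h1, h2, by rw [hk]; exact h3⟩)
    · intro j k u hj hk
      rcases Node.le_chain hj hk with h | h
      · rcases h with ⟨_, h2⟩ | ⟨q, l, h1, h2, _⟩
        · exact h2
        · exact (hself q l h1 h2).elim
      · rcases h with ⟨_, h2⟩ | ⟨q, l, h1, h2, _⟩
        · exact Eq.symm h2
        · exact (hself q l h1 h2).elim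
  have hN1 : N (U (s 0)) = mu N (s 0) := by
    refine N_U_eq hc hC hN hadd hsmul (s 0) s' ?_ ?_ ?_ hw1
    · intro j
      exact ⟨Or.inl ⟨rfl, rfl⟩, fun h => by simpa [s', s] using congrArg Node.k h⟩
    · intro j u hu
      rcases hu with ⟨h1, h2⟩ | ⟨q, l, h1, h2, h3⟩
      · cases hk : u.k with
        | zero => exact Or.inl (Or.inl ⟨h1, by rw [hk]; trivial⟩)
        | one i =>
          rw [hk] at h2
          have h2' : i = 0 := h2
          exact Or.inl (Or.inl ⟨h1, by rw [hk]; exact h2'⟩)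
        | two l =>
          rw [hk] at h2
          have h2' : l = (0, j) := h2
          exact Or.inr (Node.ext h1 (by rw [hk, h2']))
      · exact Or.inl (Or.inr ⟨q, l, h1, h2, h3⟩)
    · intro j k u hj hk
      rcases Node.le_chain hj hk with h | h
      · rcases h with ⟨_, h2⟩ | ⟨q, l, h1, h2, _⟩
        · have h2' : ((0, j) : ℕ × ℕ) = (0, k) := h2
          exact (Prod.mk.inj h2').2
        · exact (hself q l h1 h2).elim
      · rcases h with ⟨_, h2⟩ | ⟨q, l, h1, h2, _⟩
        · have h2' : ((0, k) : ℕ × ℕ) = (0, j) := h2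
          exact (Prod.mk.inj h2').2.symm
        · exact (hself q l h1 h2).elim
  have hm := mu_pos hc hN w
  set m := mu N w with hmdef
  rw [hw0 0] at hN1
  have hmid : (1 / 2 : ℝ) • (U w + U (s 0)) ∈ Z w := by
    intro u hu
    have h1 := U_mem_Z w u hu
    have h2 := Z_anti (t := w) (t' := s 0) (Or.inl ⟨rfl, trivial⟩) (U_mem_Z (s 0)) u hu
    have h3 : (((1 / 2 : ℝ) • (U w + U (s 0)) : XS) : BigL) u =
        (1 / 2 : ℝ) * ((U w : BigL) u + (U (s 0) : BigL) u) := rfl
    rw [h3, h1, h2]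
    ring
  have hNmid : m ≤ N ((1 / 2 : ℝ) • (U w + U (s 0))) := mu_le hc hN hmid
  have hne : U w ≠ U (s 0) := by
    intro h
    have h1 : (U w : BigL) (s 0) = (U (s 0) : BigL) (s 0) := by rw [h]
    rw [U_apply, U_apply, if_pos (Node.le_refl _), if_neg] at h1
    · exact absurd h1 (by norm_num)
    · rintro (⟨_, h2⟩ | ⟨q, l, h1', h2', _⟩)
      · exact h2
      · exact hself q l h1' h2'
  have hminv : |m⁻¹| = m⁻¹ := abs_of_pos (inv_pos.2 hm)
  have hx : N (m⁻¹ • U w) = 1 := by
    rw [hsmul, hN0, hminv, inv_mul_cancel₀ hm.ne']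
  have hy : N (m⁻¹ • U (s 0)) = 1 := by
    rw [hsmul, hN1, hminv, inv_mul_cancel₀ hm.ne']
  have hxy : m⁻¹ • U w ≠ m⁻¹ • U (s 0) := by
    intro h
    exact hne (smul_right_injective _ (inv_ne_zero hm.ne') h)
  have hlt := hconv _ _ hx hy hxy
  have heq : (1 / 2 : ℝ) • (m⁻¹ • U w + m⁻¹ • U (s 0)) =
      m⁻¹ • ((1 / 2 : ℝ) • (U w + U (s 0))) := by
    rw [← smul_add, smul_comm]
  rw [heq, hsmul, hminv] at hlt
  have : m⁻¹ * m ≤ m⁻¹ * N ((1 / 2 : ℝ) • (U w + U (s 0))) :=
    mul_le_mul_of_nonneg_left hNmid (inv_pos.2 hm).le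
  rw [inv_mul_cancel₀ hm.ne'] at this
  linarith

end

end Pool.Agent.LibScxTree
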