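import Pool.Agent.LibScxTree.Embed

set_option autoImplicit false

/-!
The space has no equivalent strictly convex norm.
-/

namespace Pool.Agent.LibScxTree

open Classical

/-! ### Zorn argument on bases -/

/-- End-extension order on bases. -/
def Base.le (p p' : Base) : Prop := ∀ q, p.f q ≠ none → ∀ r ≤ q, p'.f r = p.f r

theorem Base.le_refl (p : Base) : p.le p := fun _ _ _ _ => rfl

theorem Base.le_trans {p p' p'' : Base} (h : p.le p') (h' : p'.le p'') : p.le p'' := by
  intro q hq r hr
  have h1 := h q hq r hr
  have h2 : p'.f q ≠ none := by rw [h q hq q le_rfl]; exact hq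
  rw [h' q h2 r hr, h1]

/-- The empty base. -/
def Base.empty : Base where
  f := fun _ => none
  wf := by simp [Set.isWF_empty]

/-- Extension of a base by one new top element. -/
noncomputable def Base.ext1' (p : Base) (q : ℚ) (l : ℕ × ℕ) : Base where
  f := fun r => if r = q then some l else p.f r
  wf := by
    refine (p.wf.union (Set.finite_singleton q).isWF).mono ?_
    intro r hr
    simp only [Set.mem_ofPred_eq] at hr
    by_cases h : r = q
    · exact Or.inr h
    · rw [if_neg h] at hr
      exact Or.inl hr

/-- Good bases with respect to a choice of labels and rationals. -/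
def GoodB (lab : Base → ℕ × ℕ) (qq : Base → ℚ) (p : Base) : Prop :=
  ∀ q, p.f q ≠ none → p.f q = some (lab (p.cut q)) ∧ q = qq (p.cut q)

theorem cut_eq_of_le {p p' : Base} (h : p.le p') {q : ℚ} (hq : p.f q ≠ none) :
    p'.cut q = p.cut q := by
  ext1
  funext r
  by_cases hr : r < q
  · rw [Base.cut_of_lt _ hr, Base.cut_of_lt _ hr]
    exact h q hq r hr.le
  · rw [Base.cut_of_not_lt _ hr, Base.cut_of_not_lt _ hr]

theorem exists_flat (lab : Base → ℕ × ℕ) (qq : Base → ℚ)
    (hext : ∀ p, GoodB lab qq p → ∀ q, p.f q ≠ none → q < qq p) : False := by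
  -- chains of good bases have upper bounds
  have hchain : ∀ c : Set {p : Base // GoodB lab qq p},
      IsChain (fun p p' : {p : Base // GoodB lab qq p} => p.1.le p'.1) c →
      ∃ ub : {p : Base // GoodB lab qq p}, ∀ p ∈ c, p.1.le ub.1 := by
    intro c hc
    -- compare elements
    have hcmp : ∀ p ∈ c, ∀ p' ∈ c, p.1.le p'.1 ∨ p'.1.le p.1 := by
      intro p hp p' hp'
      by_cases h : p = p'
      · subst h; exact Or.inl p.1.le_refl
      · exact hc hp hp' h
    -- the union
    have hval : ∀ q : ℚ, ∃ o : Option (ℕ × ℕ), (∀ p ∈ c, p.1.f q ≠ none → p.1.f q = o) ∧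
        (o ≠ none → ∃ p ∈ c, p.1.f q = o) := by
      intro q
      by_cases h : ∃ p ∈ c, p.1.f q ≠ none
      · obtain ⟨p, hp, hpq⟩ := h
        refine ⟨p.1.f q, fun p' hp' h' => ?_, fun _ => ⟨p, hp, rfl⟩⟩
        rcases hcmp p hp p' hp' with h | h
        · exact h q hpq q le_rfl
        · exact (h q h' q le_rfl).symm
      · push Not at h
        exact ⟨none, fun p hp h' => absurd (h p hp) h', fun h' => absurd rfl h'⟩
    choose F hF1 hF2 using hval
    -- agreement: F agrees with p below any element of dom p
    have hagree : ∀ p ∈ c, ∀ q, p.1.f q ≠ none → ∀ r ≤ q, F r = p.1.f r := by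
      intro p hp q hq r hr
      by_cases hpr : p.1.f r = none
      · rw [hpr]
        by_contra hne
        obtain ⟨p', hp', hp'r⟩ := hF2 r hne
        rcases hcmp p hp p' hp' with h | h
        · have := h q hq r hr
          rw [hp'r, hpr] at this
          exact hne this
        · have h2 : p'.1.f r ≠ none := by rw [hp'r]; exact hne
          have := h r h2 r le_rfl
          rw [hpr, hp'r] at this
          exact hne this.symm
      · exact (hF1 r p hp hpr).symm
    have hwf : {q : ℚ | F q ≠ none}.IsWF := by
      rw [Set.isWF_iff_no_descending_seq]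
      intro g hg hmem
      obtain ⟨p, hp, hpq⟩ := hF2 (g 0) (hmem 0)
      have hp0 : p.1.f (g 0) ≠ none := by rw [hpq]; exact hmem 0
      have hall : ∀ n, p.1.f (g n) ≠ none := by
        intro n
        have hle : g n ≤ g 0 := by
          rcases Nat.eq_zero_or_pos n with h | h
          · rw [h]
          · exact (hg h).le
        rw [← hagree p hp (g 0) hp0 (g n) hle]
        exact hmem n
      exact (Set.isWF_iff_no_descending_seq.1 p.1.wf) g hg hall
    let U : Base := ⟨F, hwf⟩
    have hU : ∀ p ∈ c, p.1.le U := fun p hp q hq r hr => hagree p hp q hq r hr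
    have hgood : GoodB lab qq U := by
      intro q hq
      obtain ⟨p, hp, hpq⟩ := hF2 q hq
      have hpq' : p.1.f q ≠ none := by rw [hpq]; exact hq
      have hcut := cut_eq_of_le (hU p hp) hpq'
      have h1 := p.2 q hpq'
      rw [hcut]
      refine ⟨?_, h1.2⟩
      rw [← h1.1]
      exact hpq.symm
    exact ⟨⟨U, hgood⟩, hU⟩
  obtain ⟨m, hm⟩ := exists_maximal_of_chains_bounded hchain
    (fun {a b c} h h' => Base.le_trans h h')
  -- extend the maximal element
  set q := qq m.1 with hq
  have hnew : ∀ r, m.1.f r ≠ none → r < q := fun r hr => hext m.1 m.2 r hr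
  have hmq : m.1.f q = none := by
    by_contra h
    exact lt_irrefl _ (hnew q h)
  let E : Base := m.1.ext1' q (lab m.1)
  have hE : ∀ r, E.f r = if r = q then some (lab m.1) else m.1.f r := fun _ => rfl
  have hmE : m.1.le E := by
    intro s hs r hr
    have : r ≠ q := (lt_of_le_of_lt hr (hnew s hs)).ne
    rw [hE, if_neg this]
  have hEcut : E.cut q = m.1 := by
    ext1
    funext r
    rw [Base.cut_f]
    split_ifs with hr
    · rw [hE, if_neg hr.ne]
    · by_contra h
      exact hr (hnew r (fun h' => h h'.symm))
  have hEgood : GoodB lab qq E := by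
    intro r hr
    by_cases hrq : r = q
    · subst hrq
      rw [hEcut]
      exact ⟨by rw [hE, if_pos rfl], rfl⟩
    · have hEr : E.f r = m.1.f r := by rw [hE, if_neg hrq]
      rw [hEr] at hr ⊢
      rw [cut_eq_of_le hmE hr]
      exact m.2 r hr
  have := hm ⟨E, hEgood⟩ hmE q (by rw [hE, if_pos rfl]; simp) q le_rfl
  rw [hmq, hE, if_pos rfl] at this
  exact absurd this (by simp)

end Pool.Agent.LibScxTree
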