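import Mathlib

set_option autoImplicit false

/-!
The tree used for problem MP_938f3b_an: its nodes, its order, and the combinatorial facts.
-/

namespace Pool.Agent.LibScxTree

/-- A partial function from the rationals to pairs of naturals, with well-ordered domain. -/
@[ext] structure Base where
  f : ℚ → Option (ℕ × ℕ)
  wf : {q : ℚ | f q ≠ none}.IsWF

/-- Restriction of a base to the rationals below `q`. -/
noncomputable def Base.cut (p : Base) (q : ℚ) : Base where
  f := fun r => if r < q then p.f r else none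
  wf := p.wf.mono (by
    intro r hr
    simp only [Set.mem_ofPred_eq] at hr ⊢
    by_cases h : r < q
    · simpa [h] using hr
    · simp [h] at hr)

theorem Base.cut_f (p : Base) (q r : ℚ) : (p.cut q).f r = if r < q then p.f r else none := rfl

theorem Base.cut_of_lt (p : Base) {q r : ℚ} (h : r < q) : (p.cut q).f r = p.f r := by
  simp [Base.cut_f, h]

theorem Base.cut_of_not_lt (p : Base) {q r : ℚ} (h : ¬ r < q) : (p.cut q).f r = none := by
  simp [Base.cut_f, h]

theorem Base.cut_cut (p : Base) {q r : ℚ} (h : q ≤ r) : (p.cut r).cut q = p.cut q := by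
  ext1
  funext s
  by_cases hs : s < q
  · simp [Base.cut_f, hs, lt_of_lt_of_le hs h]
  · simp [Base.cut_f, hs]

/-- The three kinds of nodes over a base. -/
inductive Kind : Type
  | zero : Kind
  | one : ℕ → Kind
  | two : ℕ × ℕ → Kind

/-- Prefix order on kinds. -/
def Kind.le : Kind → Kind → Prop
  | Kind.zero, _ => True
  | Kind.one _, Kind.zero => False
  | Kind.one j, Kind.one k => j = k
  | Kind.one j, Kind.two l => j = l.1
  | Kind.two _, Kind.zero => False
  | Kind.two _, Kind.one _ => False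
  | Kind.two l, Kind.two m => l = m

theorem Kind.le_refl (a : Kind) : a.le a := by
  cases a <;> simp [Kind.le]

theorem Kind.le_trans {a b c : Kind} (h : a.le b) (h' : b.le c) : a.le c := by
  cases a <;> cases b <;> cases c <;> simp_all [Kind.le]

theorem Kind.le_antisymm {a b : Kind} (h : a.le b) (h' : b.le a) : a = b := by
  cases a <;> cases b <;> simp_all [Kind.le]

theorem Kind.le_chain {a b c : Kind} (h : a.le c) (h' : b.le c) : a.le b ∨ b.le a := by
  cases a <;> cases b <;> cases c <;> simp_all [Kind.le]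

/-- Nodes of the tree. -/
@[ext] structure Node where
  b : Base
  k : Kind

/-- The tree order. -/
def Node.le (v t : Node) : Prop :=
  (v.b = t.b ∧ v.k.le t.k) ∨
    ∃ (q : ℚ) (l : ℕ × ℕ), t.b.f q = some l ∧ v.b = t.b.cut q ∧ v.k.le (Kind.two l)

theorem Node.le_refl (v : Node) : v.le v := Or.inl ⟨rfl, Kind.le_refl _⟩

theorem Node.le_trans {u v t : Node} (h : u.le v) (h' : v.le t) : u.le t := by
  rcases h with ⟨h1, h2⟩ | ⟨q, l, h1, h2, h3⟩
  · rcases h' with ⟨h1', h2'⟩ | ⟨q', l', h1', h2', h3'⟩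
    · exact Or.inl ⟨h1.trans h1', Kind.le_trans h2 h2'⟩
    · exact Or.inr ⟨q', l', h1', h1.trans h2', Kind.le_trans h2 h3'⟩
  · rcases h' with ⟨h1', h2'⟩ | ⟨q', l', h1', h2', h3'⟩
    · exact Or.inr ⟨q, l, h1' ▸ h1, h1' ▸ h2, h3⟩
    · have hq : q < q' := by
        by_contra hq
        rw [h2', Base.cut_of_not_lt _ hq] at h1
        exact absurd h1 (by simp)
      refine Or.inr ⟨q, l, ?_, ?_, h3⟩
      · rw [h2', Base.cut_of_lt _ hq] at h1
        exact h1
      · rw [h2, h2', Base.cut_cut _ hq.le]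

theorem Node.le_antisymm {u v : Node} (h : u.le v) (h' : v.le u) : u = v := by
  rcases h with ⟨h1, h2⟩ | ⟨q, l, h1, h2, h3⟩
  · rcases h' with ⟨h1', h2'⟩ | ⟨q', l', h1', h2', h3'⟩
    · exact Node.ext h1 (Kind.le_antisymm h2 h2')
    · exfalso
      rw [h2'] at h1
      rw [h1, Base.cut_of_not_lt _ (lt_irrefl _)] at h1'
      exact absurd h1' (by simp)
  · exfalso
    rcases h' with ⟨h1', h2'⟩ | ⟨q', l', h1', h2', h3'⟩
    · rw [h1', h2, Base.cut_of_not_lt _ (lt_irrefl _)] at h1
      exact absurd h1 (by simp)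
    · have e1 : u.b.f q = none := by rw [h2, Base.cut_of_not_lt _ (lt_irrefl _)]
      rw [h2', Base.cut_f] at h1
      split_ifs at h1 with hq
      · rw [e1] at h1
        exact absurd h1 (by simp)

theorem Node.le_chain {u v t : Node} (h : u.le t) (h' : v.le t) : u.le v ∨ v.le u := by
  rcases h with ⟨h1, h2⟩ | ⟨q, l, h1, h2, h3⟩
  · rcases h' with ⟨h1', h2'⟩ | ⟨q', l', h1', h2', h3'⟩
    · rcases Kind.le_chain h2 h2' with h | h
      · exact Or.inl (Or.inl ⟨h1.trans h1'.symm, h⟩)
      · exact Or.inr (Or.inl ⟨h1'.trans h1.symm, h⟩)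
    · exact Or.inr (Or.inr ⟨q', l', h1 ▸ h1', h1 ▸ h2', h3'⟩)
  · rcases h' with ⟨h1', h2'⟩ | ⟨q', l', h1', h2', h3'⟩
    · exact Or.inl (Or.inr ⟨q, l, h1' ▸ h1, h1' ▸ h2, h3⟩)
    · rcases lt_trichotomy q q' with hq | hq | hq
      · refine Or.inl (Or.inr ⟨q, l, ?_, ?_, h3⟩)
        · rw [h2', Base.cut_of_lt _ hq]; exact h1
        · rw [h2', Base.cut_cut _ hq.le]; exact h2
      · subst hq
        have hl : l = l' := by
          rw [h1] at h1'
          exact Option.some.inj h1'
        subst hl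
        rcases Kind.le_chain h3 h3' with h | h
        · exact Or.inl (Or.inl ⟨h2.trans h2'.symm, h⟩)
        · exact Or.inr (Or.inl ⟨h2'.trans h2.symm, h⟩)
      · refine Or.inr (Or.inr ⟨q', l', ?_, ?_, h3'⟩)
        · rw [h2, Base.cut_of_lt _ hq]; exact h1'
        · rw [h2, Base.cut_cut _ hq.le]; exact h2'

/-- Strict order. -/
def Node.lt (v t : Node) : Prop := v.le t ∧ v ≠ t

theorem Node.lt_of_lt_of_le {u v t : Node} (h : u.lt v) (h' : v.le t) : u.lt t := by
  refine ⟨Node.le_trans h.1 h', ?_⟩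
  rintro rfl
  exact h.2 (Node.le_antisymm h.1 h')

theorem Node.lt_of_le_of_lt {u v t : Node} (h : u.le v) (h' : v.lt t) : u.lt t := by
  refine ⟨Node.le_trans h h'.1, ?_⟩
  rintro rfl
  exact h'.2 (Node.le_antisymm h'.1 h)

theorem Node.not_le_of_lt {u v : Node} (h : u.lt v) : ¬ v.le u := fun h' =>
  h.2 (Node.le_antisymm h.1 h')

/-- The base node under a node. -/
def Node.root (v : Node) : Node := ⟨v.b, Kind.zero⟩

theorem Node.root_le (v : Node) : v.root.le v := Or.inl ⟨rfl, trivial⟩

theorem Node.root_b (v : Node) : v.root.b = v.b := rfl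

theorem Node.root_eq_of_k {v : Node} (h : v.k = Kind.zero) : v.root = v := by
  ext1
  · rfl
  · exact h.symm

/-- A base node below `v` is below the root of `v`. -/
theorem Node.le_root {u v : Node} (hu : u.k = Kind.zero) (h : u.le v) : u.le v.root := by
  rcases h with ⟨h1, h2⟩ | ⟨q, l, h1, h2, h3⟩
  · exact Or.inl ⟨h1, by rw [hu]; trivial⟩
  · exact Or.inr ⟨q, l, h1, h2, h3⟩

theorem Node.root_mono {u v : Node} (h : u.le v) : u.root.le v.root :=
  Node.le_root rfl (Node.le_trans u.root_le h)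

end Pool.Agent.LibScxTree
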