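import Pool.Agent.LibScxTree.Comb

set_option autoImplicit false

/-!
The separation lemma for step functions.
-/

namespace Pool.Agent.LibScxTree

open Classical

/-- The data of a function at a node. -/
noncomputable def D (x : Node → ℝ) (v : Node) : ℝ × ℝ × ℝ × ℝ :=
  (x v.root, x v, csup x v, esup x v)

theorem dist_D_1 (x y : Node → ℝ) (u v : Node) : |x u.root - y v.root| ≤ dist (D x u) (D y v) := by
  have : dist (D x u).1 (D y v).1 ≤ dist (D x u) (D y v) := le_max_left _ _
  simpa [D, Real.dist_eq] using this

theorem dist_D_2 (x y : Node → ℝ) (u v : Node) : |x u - y v| ≤ dist (D x u) (D y v) := by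
  have h1 : dist (D x u).2 (D y v).2 ≤ dist (D x u) (D y v) := le_max_right _ _
  have h2 : dist (D x u).2.1 (D y v).2.1 ≤ dist (D x u).2 (D y v).2 := le_max_left _ _
  have := h2.trans h1
  simpa [D, Real.dist_eq] using this

theorem dist_D_3 (x y : Node → ℝ) (u v : Node) : |csup x u - csup y v| ≤ dist (D x u) (D y v) := by
  have h1 : dist (D x u).2 (D y v).2 ≤ dist (D x u) (D y v) := le_max_right _ _
  have h2 : dist (D x u).2.2 (D y v).2.2 ≤ dist (D x u).2 (D y v).2 := le_max_right _ _
  have h3 : dist (D x u).2.2.1 (D y v).2.2.1 ≤ dist (D x u).2.2 (D y v).2.2 := le_max_left _ _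
  have := h3.trans (h2.trans h1)
  simpa [D, Real.dist_eq] using this

theorem dist_D_4 (x y : Node → ℝ) (u v : Node) : |esup x u - esup y v| ≤ dist (D x u) (D y v) := by
  have h1 : dist (D x u).2 (D y v).2 ≤ dist (D x u) (D y v) := le_max_right _ _
  have h2 : dist (D x u).2.2 (D y v).2.2 ≤ dist (D x u).2 (D y v).2 := le_max_right _ _
  have h3 : dist (D x u).2.2.2 (D y v).2.2.2 ≤ dist (D x u).2.2 (D y v).2.2 := le_max_right _ _
  have := h3.trans (h2.trans h1)
  simpa [D, Real.dist_eq] using this

/-- The separation property: `x` has at some node data which `y` never has on a basic set. -/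
def Good (x y : Node → ℝ) (s : ℝ) : Prop :=
  ∃ (κ : Kind) (A : Finset (ℚ × Option (ℕ × ℕ))) (v₀ : Node), v₀.k = κ ∧ Sat A v₀.b ∧
    ∀ v : Node, v.k = κ → Sat A v.b → s ≤ dist (D y v) (D x v₀)

theorem Good.mono {x y : Node → ℝ} {s s' : ℝ} (h : Good x y s) (hs : s' ≤ s) : Good x y s' := by
  obtain ⟨κ, A, v₀, h1, h2, h3⟩ := h
  exact ⟨κ, A, v₀, h1, h2, fun v hv hA => hs.trans (h3 v hv hA)⟩

theorem good_base (S : Finset Node) (a b : Node → ℝ) {w : Node} (hw : w.k = Kind.zero) {s : ℝ}
    (hs : s ≤ |step S a w - step S b w|) :
    Good (step S a) (step S b) (s / 2) ∨ Good (step S b) (step S a) (s / 2) := by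
  obtain ⟨A, hA1, hA2⟩ := sep_finset hw S
  have key : ∀ v : Node, v.k = Kind.zero → Sat A v.b →
      (step S a v = 0 ∧ step S b v = 0) ∨ (step S a v = step S a w ∧ step S b v = step S b w) := by
    intro v hv hsat
    by_cases h : ∃ t ∈ S, v.le t
    · obtain ⟨t, ht, hvt⟩ := h
      have hvw : v.le w := (hA2 v hv hsat t ht hvt).2
      have heq : ∀ t ∈ S, (v.le t ↔ w.le t) := fun t ht =>
        ⟨fun h => (hA2 v hv hsat t ht h).1, fun h => Node.le_trans hvw h⟩
      exact Or.inr ⟨step_congr heq, step_congr heq⟩
    · push Not at h
      exact Or.inl ⟨step_zero h, step_zero h⟩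
  have htri : |step S a w - step S b w| ≤ |step S a w| + |step S b w| := abs_sub _ _
  by_cases hx : s / 2 ≤ |step S a w|
  · refine Or.inl ⟨Kind.zero, A, w, hw, hA1, fun v hv hsat => ?_⟩
    refine le_trans ?_ (dist_D_2 (step S b) (step S a) v w)
    rcases key v hv hsat with ⟨_, h⟩ | ⟨_, h⟩
    · rw [h, zero_sub, abs_neg]; exact hx
    · rw [h, abs_sub_comm]
      have := abs_nonneg (step S a w - step S b w)
      linarith
  · push Not at hx
    have hy : s / 2 ≤ |step S b w| := by linarith
    refine Or.inr ⟨Kind.zero, A, w, hw, hA1, fun v hv hsat => ?_⟩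
    refine le_trans ?_ (dist_D_2 (step S a) (step S b) v w)
    rcases key v hv hsat with ⟨h, _⟩ | ⟨h, _⟩
    · rw [h, zero_sub, abs_neg]; exact hy
    · rw [h]
      have := abs_nonneg (step S a w - step S b w)
      linarith

theorem good_jump (S : Finset Node) (a b : Node → ℝ) (t : Node) {s : ℝ} (hs0 : 0 < s)
    (h1 : s ≤ |step S a t.root - step S a t|) (h2 : s ≤ csup (step S a) t)
    (h3 : s / 2 ≤ |step S a t - step S b t|) :
    Good (step S a) (step S b) (s / 2) := by
  obtain ⟨A, hA1, hA2⟩ := isolate t _ (finite_jump S b t.k)
  refine ⟨t.k, A, t, rfl, hA1, fun v hv hsat => ?_⟩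
  by_cases hvt : v = t
  · subst hvt
    refine le_trans ?_ (dist_D_2 (step S b) (step S a) v v)
    rw [abs_sub_comm]
    exact h3
  · have hbad := hA2 v hv hsat hvt
    simp only [Set.mem_ofPred_eq, not_and, not_not] at hbad
    by_cases hex : ∃ t' ∈ S, v.le t'
    · have heq := hbad hv hex
      have e1 := dist_D_1 (step S b) (step S a) v t
      have e2 := dist_D_2 (step S b) (step S a) v t
      rw [heq] at e1
      have : |step S a t.root - step S a t| ≤
          |step S b v - step S a t.root| + |step S b v - step S a t| := by
        have := abs_sub_le (step S a t.root) (step S b v) (step S a t)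
        rw [abs_sub_comm (step S a t.root) (step S b v)] at this
        exact this
      linarith
    · push Not at hex
      have hc : csup (step S b) v = 0 := by
        refine le_antisymm (csup_le (fun u hu => ?_)) (csup_nonneg _ _)
        rw [step_zero (fun t' ht' h => hex t' ht' (Node.le_trans hu h))]
        simp
      refine le_trans ?_ (dist_D_3 (step S b) (step S a) v t)
      rw [hc, zero_sub, abs_neg]
      have := le_abs_self (csup (step S a) t)
      linarith

theorem good_end (S : Finset Node) (a b : Node → ℝ) (t : Node) {s : ℝ}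
    (h1 : s ≤ |step S a t| - esup (step S a) t)
    (h3 : s / 2 ≤ |step S a t - step S b t|) :
    Good (step S a) (step S b) (s / 2) := by
  obtain ⟨A, hA1, hA2⟩ := isolate t _ (finite_end S b)
  refine ⟨t.k, A, t, rfl, hA1, fun v hv hsat => ?_⟩
  by_cases hvt : v = t
  · subst hvt
    refine le_trans ?_ (dist_D_2 (step S b) (step S a) v v)
    rw [abs_sub_comm]
    exact h3
  · have hbad := hA2 v hv hsat hvt
    simp only [Set.mem_ofPred_eq, not_lt] at hbad
    have e2 := dist_D_2 (step S b) (step S a) v t
    have e4 := dist_D_4 (step S b) (step S a) v t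
    have e5 : |step S a t| - |step S b v| ≤ |step S b v - step S a t| := by
      rw [abs_sub_comm]
      exact abs_sub_abs_le_abs_sub _ _
    have e6 : esup (step S b) v - esup (step S a) t ≤ |esup (step S b) v - esup (step S a) t| :=
      le_abs_self _
    linarith

theorem good_small (S : Finset Node) (a b : Node → ℝ) (t : Node) (ht : t.k ≠ Kind.zero) {r : ℝ}
    (hr : 0 < r) (h1 : csup (step S b) t < r / 8) (h2 : r ≤ |step S a t - step S b t|) :
    Good (step S a) (step S b) (r / 16) ∨ Good (step S b) (step S a) (r / 16) := by
  have hMx := abs_step_le S a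
  have hMy := abs_step_le S b
  have hy : ∀ u, t.le u → |step S b u| < r / 8 := fun u hu => lt_of_le_of_lt (le_csup hMy hu) h1
  have hxt : r - r / 8 ≤ |step S a t| := by
    have e1 := hy t t.le_refl
    have e2 : |step S a t - step S b t| ≤ |step S a t| + |step S b t| := abs_sub _ _
    linarith
  by_cases hi : ∃ w : Node, t.lt w ∧ w.k = Kind.zero ∧ r / 4 ≤ |step S a w|
  · obtain ⟨w, hw1, hw2, hw3⟩ := hi
    have e1 := hy w hw1.1
    have e2 : |step S a w| - |step S b w| ≤ |step S a w - step S b w| :=
      abs_sub_abs_le_abs_sub _ _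
    have e3 : r / 8 ≤ |step S a w - step S b w| := by linarith
    rcases good_base S a b hw2 e3 with h | h
    · exact Or.inl (h.mono (by linarith))
    · exact Or.inr (h.mono (by linarith))
  push Not at hi
  by_cases hii : ∃ u : Node, t.lt u ∧ u.b ≠ t.b ∧ 3 * r / 8 ≤ |step S a u|
  · obtain ⟨u, hu1, hu2, hu3⟩ := hii
    have hroot : t.lt u.root := by
      refine ⟨?_, ?_⟩
      · rcases hu1.1 with ⟨e1, e2⟩ | ⟨q, l, e1, e2, e3⟩
        · exact absurd e1.symm hu2
        · exact Or.inr ⟨q, l, e1, e2, e3⟩
      · intro h
        apply ht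
        rw [h]
        rfl
    have hw := hi u.root hroot rfl
    have e1 : |step S a u| - |step S a u.root| ≤ |step S a u.root - step S a u| := by
      rw [abs_sub_comm]
      exact abs_sub_abs_le_abs_sub _ _
    have e2 : |step S a u| ≤ csup (step S a) u := le_csup hMx u.le_refl
    have e3 := hy u hu1.1
    have e4 : |step S a u| - |step S b u| ≤ |step S a u - step S b u| :=
      abs_sub_abs_le_abs_sub _ _
    have := good_jump S a b u (s := r / 8) (by linarith) (by linarith) (by linarith) (by linarith)
    exact Or.inl (this.mono (by linarith))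
  push Not at hii
  -- third case
  have hfin : ∀ v : Node, t.le v → r / 4 ≤ |step S a v| - esup (step S a) v →
      Good (step S a) (step S b) (r / 16) ∨ Good (step S b) (step S a) (r / 16) := by
    intro v hv hgap
    have e3 := hy v hv
    have e4 : |step S a v| - |step S b v| ≤ |step S a v - step S b v| :=
      abs_sub_abs_le_abs_sub _ _
    have e5 := esup_nonneg (step S a) v
    have := good_end S a b v (s := r / 4) hgap (by linarith)
    exact Or.inl (this.mono (by linarith))
  by_cases hgap : r / 4 ≤ |step S a t| - esup (step S a) t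
  · exact hfin t t.le_refl hgap
  · have hex : ∃ u : Node, t.lt u ∧ |step S a t| - r / 4 < |step S a u| := by
      by_contra hcon
      push Not at hcon
      have : esup (step S a) t ≤ |step S a t| - r / 4 := esup_le (by linarith) hcon
      exact hgap (by linarith)
    obtain ⟨u, hu1, hu2⟩ := hex
    have hub : u.b = t.b := by
      by_contra hne
      have := hii u hu1 hne
      linarith
    refine hfin u hu1.1 ?_
    have he : esup (step S a) u ≤ 3 * r / 8 := by
      refine esup_le (by linarith) (fun u' hu' => ?_)
      have hb' : u'.b ≠ t.b := by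
        intro hb
        have hbu : u'.b = u.b := hb.trans hub.symm
        -- kinds: t < u < u' all over the same base
        have k1 : t.k.le u.k := by
          rcases hu1.1 with ⟨_, e⟩ | ⟨q, l, e1, e2, e3⟩
          · exact e
          · exfalso
            have : u.b.f q = none := by
              rw [hub, e2, Base.cut_of_not_lt _ (lt_irrefl _)]
            rw [this] at e1
            exact absurd e1 (by simp)
        have k2 : u.k.le u'.k := by
          rcases hu'.1 with ⟨_, e⟩ | ⟨q, l, e1, e2, e3⟩
          · exact e
          · exfalso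
            have : u'.b.f q = none := by
              rw [hbu, e2, Base.cut_of_not_lt _ (lt_irrefl _)]
            rw [this] at e1
            exact absurd e1 (by simp)
        have n1 : t.k ≠ u.k := fun h => hu1.2 (Node.ext hub.symm h)
        have n2 : u.k ≠ u'.k := fun h => hu'.2 (Node.ext hbu.symm h)
        revert k1 k2 n1 n2 ht
        cases t.k <;> cases u.k <;> cases u'.k <;> simp_all [Kind.le]
      exact (hii u' (Node.lt_of_lt_of_le hu1 hu'.1) hb').le
    linarith

/-- Main separation lemma. -/
theorem good_main (S : Finset Node) (a b : Node → ℝ) (t : Node) {r : ℝ}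
    (hr : 0 < r) (h : r ≤ |step S a t - step S b t|) :
    Good (step S a) (step S b) (r / 16) ∨ Good (step S b) (step S a) (r / 16) := by
  by_cases ht : t.k = Kind.zero
  · rcases good_base S a b ht h with h | h
    · exact Or.inl (h.mono (by linarith))
    · exact Or.inr (h.mono (by linarith))
  by_cases hw : r / 8 ≤ |step S a t.root - step S b t.root|
  · rcases good_base S a b (w := t.root) rfl hw with h | h
    · exact Or.inl (h.mono (by linarith))
    · exact Or.inr (h.mono (by linarith))
  push Not at hw
  have h' : r ≤ |step S b t - step S a t| := by rw [abs_sub_comm]; exact h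
  by_cases hjx : r / 8 ≤ |step S a t.root - step S a t|
  · by_cases hc : r / 8 ≤ csup (step S a) t
    · have := good_jump S a b t (s := r / 8) (by linarith) hjx hc (by linarith)
      exact Or.inl (this.mono (by linarith))
    · push Not at hc
      exact (good_small S b a t ht hr hc h').symm
  · push Not at hjx
    have hjy : r / 8 ≤ |step S b t.root - step S b t| := by
      have e1 : |step S a t - step S b t| ≤ |step S a t - step S a t.root| +
          |step S a t.root - step S b t| := abs_sub_le _ _ _
      have e2 : |step S a t.root - step S b t| ≤ |step S a t.root - step S b t.root| +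
          |step S b t.root - step S b t| := abs_sub_le _ _ _
      rw [abs_sub_comm (step S a t)  (step S a t.root)] at e1
      linarith
    by_cases hc : r / 8 ≤ csup (step S b) t
    · have := good_jump S b a t (s := r / 8) (by linarith) hjy hc (by linarith)
      exact Or.inr (this.mono (by linarith))
    · push Not at hc
      exact good_small S a b t ht hr hc h

end Pool.Agent.LibScxTree
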